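import Mathlib

/-!
# Lipschitz vectors for an orthogonal representation

`exists_lipschitz`: if `‖π g η - η‖` is small whenever `‖π g ξ - ξ‖` is small, uniformly in `g`,
then `η` is a limit of vectors `ζ` with `‖π g ζ - ζ‖ ≤ K * ‖π g ξ - ξ‖` for all `g`.
-/

set_option autoImplicit false
set_option linter.unusedSectionVars false

namespace Pool.Agent.Helper52.BC

open scoped RealInnerProductSpace
open Finset

variable {H : Type*} [NormedAddCommGroup H] [InnerProductSpace ℝ H]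
variable {G : Type*} [Group G] (π : G →* (H ≃ₗᵢ[ℝ] H))

/-- The operator of a group element as an endomorphism. -/
noncomputable def L (g : G) : Module.End ℝ H := ((π g).toLinearEquiv : H →ₗ[ℝ] H)

@[simp] theorem L_apply (g : G) (x : H) : L π g x = π g x := rfl

theorem L_mul (g h : G) : L π (g * h) = L π g * L π h := by
  ext x
  simp [L, map_mul]

theorem L_one : L π 1 = 1 := by
  ext x
  simp [L]

theorem pi_inv (g : G) (y : H) : π g (π g⁻¹ y) = y := by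
  have h : (L π g * L π g⁻¹) y = y := by
    rw [← L_mul, mul_inv_cancel, L_one]; rfl
  exact h

theorem inner_inv (g : G) (x y : H) : ⟪π g x, y⟫ = ⟪x, π g⁻¹ y⟫ := by
  conv_lhs => rw [← pi_inv π g y]
  exact (π g).inner_map_map x (π g⁻¹ y)

theorem norm_sub_sq' (g : G) (x : H) : ‖π g x - x‖ ^ 2 = 2 * (‖x‖ ^ 2 - ⟪π g x, x⟫) := by
  rw [@norm_sub_sq_real, LinearIsometryEquiv.norm_map]
  ring

theorem pi_norm_inv (g : G) (x : H) : ‖π g⁻¹ x - x‖ = ‖π g x - x‖ := by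
  have h := (π g).norm_map (π g⁻¹ x - x)
  rw [map_sub, pi_inv] at h
  rw [← h, norm_sub_rev]

/-! ### Averages -/

/-- The set of all averages of the operators. -/
def Av : Set (Module.End ℝ H) := convexHull ℝ (Set.range (L π))

theorem L_mem_av (g : G) : L π g ∈ Av π := subset_convexHull ℝ _ ⟨g, rfl⟩

theorem one_mem_av : (1 : Module.End ℝ H) ∈ Av π := by
  rw [← L_one π]; exact L_mem_av π 1

theorem convex_av : Convex ℝ (Av π) := convex_convexHull ℝ _

theorem L_mul_mem_av (g : G) {S : Module.End ℝ H} (hS : S ∈ Av π) : L π g * S ∈ Av π := by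
  have h : Av π ⊆ (LinearMap.mulLeft ℝ (L π g)) ⁻¹' Av π := by
    refine convexHull_min ?_ ((convex_av π).linear_preimage _)
    rintro _ ⟨h, rfl⟩
    simp only [Set.mem_preimage, LinearMap.mulLeft_apply]
    rw [← L_mul]
    exact L_mem_av π _
  exact h hS

/-- The mixed operator. -/
noncomputable def T (s : Finset G) (w : G → ℝ) : Module.End ℝ H :=
  ∑ g ∈ s, w g • ((1 / 2 : ℝ) • L π g + (1 / 2 : ℝ) • L π g⁻¹)

variable {s : Finset G} {w : G → ℝ}

theorem T_mul_mem_av (hw : ∀ g ∈ s, 0 ≤ w g) (h1 : ∑ g ∈ s, w g = 1) {S : Module.End ℝ H}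
    (hS : S ∈ Av π) : T π s w * S ∈ Av π := by
  have h := (convex_av π).sum_mem (w := w)
    (z := fun g => ((1 / 2 : ℝ) • L π g + (1 / 2 : ℝ) • L π g⁻¹) * S) hw h1 (fun g _ => by
      rw [add_mul, smul_mul_assoc, smul_mul_assoc]
      exact convex_av π (L_mul_mem_av π g hS) (L_mul_mem_av π g⁻¹ hS) (by norm_num) (by norm_num)
        (by norm_num))
  have e : T π s w * S = ∑ g ∈ s, w g • (((1 / 2 : ℝ) • L π g + (1 / 2 : ℝ) • L π g⁻¹) * S) := by
    rw [T, Finset.sum_mul]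
    exact Finset.sum_congr rfl fun g _ => smul_mul_assoc _ _ _
  rw [e]
  exact h

theorem T_pow_mem_av (hw : ∀ g ∈ s, 0 ≤ w g) (h1 : ∑ g ∈ s, w g = 1) (m : ℕ) :
    T π s w ^ m ∈ Av π := by
  induction m with
  | zero => rw [pow_zero]; exact one_mem_av π
  | succ m ih => rw [pow_succ']; exact T_mul_mem_av π hw h1 ih

theorem T_apply (x : H) :
    T π s w x = ∑ g ∈ s, w g • ((1 / 2 : ℝ) • π g x + (1 / 2 : ℝ) • π g⁻¹ x) := by
  simp [T, LinearMap.sum_apply]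

theorem T_symm (x y : H) : ⟪T π s w x, y⟫ = ⟪x, T π s w y⟫ := by
  rw [T_apply, T_apply, sum_inner, inner_sum]
  refine Finset.sum_congr rfl fun g _ => ?_
  rw [inner_smul_left, inner_smul_right, inner_add_left, inner_add_right, inner_smul_left,
    inner_smul_left, inner_smul_right, inner_smul_right, inner_inv π g x y]
  have h : ⟪π g⁻¹ x, y⟫ = ⟪x, π g y⟫ := by
    rw [inner_inv π g⁻¹ x y, inv_inv]
  rw [h]
  simp only [conj_trivial]
  ring

theorem T_sum (x : H) (h1 : ∑ g ∈ s, w g = 1) :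
    ∑ g ∈ s, w g * ‖π g x - x‖ ^ 2 = 2 * (‖x‖ ^ 2 - ⟪T π s w x, x⟫) := by
  have h2 : ∀ g, w g * ‖π g x - x‖ ^ 2 = 2 * (w g * ‖x‖ ^ 2 -
      ⟪w g • ((1 / 2 : ℝ) • π g x + (1 / 2 : ℝ) • π g⁻¹ x), x⟫) := by
    intro g
    have h3 : ⟪π g⁻¹ x, x⟫ = ⟪π g x, x⟫ := by
      rw [inner_inv π g⁻¹ x x, inv_inv, real_inner_comm]
    rw [norm_sub_sq' π, inner_smul_left, inner_add_left, inner_smul_left, inner_smul_left, h3]
    simp only [conj_trivial]
    ring
  rw [Finset.sum_congr rfl fun g _ => h2 g, ← Finset.mul_sum, Finset.sum_sub_distrib,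
    ← Finset.sum_mul, h1, one_mul, T_apply, sum_inner]

theorem T_norm (hw : ∀ g ∈ s, 0 ≤ w g) (h1 : ∑ g ∈ s, w g = 1) (x : H) :
    ‖T π s w x‖ ≤ ‖x‖ := by
  rw [T_apply]
  refine (norm_sum_le _ _).trans ?_
  have h : ∀ g ∈ s, ‖w g • ((1 / 2 : ℝ) • π g x + (1 / 2 : ℝ) • π g⁻¹ x)‖ ≤ w g * ‖x‖ := by
    intro g hg
    rw [norm_smul, Real.norm_of_nonneg (hw g hg)]
    refine mul_le_mul_of_nonneg_left ?_ (hw g hg)
    refine (norm_add_le _ _).trans ?_
    rw [norm_smul, norm_smul, LinearIsometryEquiv.norm_map, LinearIsometryEquiv.norm_map]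
    norm_num
    linarith
  refine (Finset.sum_le_sum h).trans ?_
  rw [← Finset.sum_mul, h1, one_mul]

/-! ### The form of `1 - T` -/

section Form

variable {A : Module.End ℝ H} (hs : ∀ x y, ⟪A x, y⟫ = ⟪x, A y⟫) (hn : ∀ x, ‖A x‖ ≤ ‖x‖)

include hs hn

theorem pow_norm (k : ℕ) (x : H) : ‖(A ^ k) x‖ ≤ ‖x‖ := by
  induction k with
  | zero => simp
  | succ k ih => rw [pow_succ', Module.End.mul_apply]; exact (hn _).trans ih

theorem form_nonneg (x : H) : 0 ≤ ⟪x - A x, x⟫ := by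
  rw [inner_sub_left, real_inner_self_eq_norm_sq]
  have h := real_inner_le_norm (A x) x
  nlinarith [hn x, norm_nonneg x, norm_nonneg (A x)]

theorem form_nonneg' (x : H) : 0 ≤ ⟪x + A x, x⟫ := by
  rw [inner_add_left, real_inner_self_eq_norm_sq]
  have h := neg_le_of_abs_le (abs_real_inner_le_norm (A x) x)
  nlinarith [hn x, norm_nonneg x, norm_nonneg (A x)]

theorem form_step (x : H) : ⟪A x - A (A x), A x⟫ ≤ ⟪x - A x, x⟫ := by
  have h := form_nonneg' hs hn (x - A x)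
  have h2 : ⟪x - A x + A (x - A x), x - A x⟫ = ⟪x - A x, x⟫ - ⟪A x - A (A x), A x⟫ := by
    rw [map_sub]
    have e1 : x - A x + (A x - A (A x)) = x - A (A x) := by abel
    rw [e1]
    simp only [inner_sub_left, inner_sub_right]
    have e2 : ⟪A (A x), x⟫ = ⟪A x, A x⟫ := hs _ _
    have e3 : ⟪x, A x⟫ = ⟪A x, x⟫ := (hs _ _).symm
    rw [e2, e3]
    ring
  linarith

theorem form_pow (k : ℕ) (x : H) :
    ⟪(A ^ k) x - A ((A ^ k) x), (A ^ k) x⟫ ≤ ⟪x - A x, x⟫ := by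
  induction k with
  | zero => simp
  | succ k ih =>
    rw [pow_succ', Module.End.mul_apply]
    exact (form_step hs hn _).trans ih

/-- Cauchy-Schwarz for the form of `1 - A`. -/
theorem form_cs (x y : H) : ⟪x - A x, y⟫ ≤ (⟪x - A x, x⟫ + ⟪y - A y, y⟫) / 2 := by
  have h := form_nonneg hs hn (x - y)
  have h2 : ⟪x - y - A (x - y), x - y⟫ = ⟪x - A x, x⟫ + ⟪y - A y, y⟫ - 2 * ⟪x - A x, y⟫ := by
    rw [map_sub]
    simp only [inner_sub_left, inner_sub_right]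
    have e1 : ⟪A y, x⟫ = ⟪A x, y⟫ := by rw [hs y x, real_inner_comm]
    have e2 : ⟪y, x⟫ = ⟪x, y⟫ := real_inner_comm _ _
    rw [e1, e2]
    ring
  linarith

theorem one_sub_pow (m : ℕ) (x : H) :
    ⟪x - (A ^ m) x, x⟫ ≤ m * ⟪x - A x, x⟫ := by
  induction m with
  | zero => simp
  | succ m ih =>
    have e : x - (A ^ (m + 1)) x = (x - (A ^ m) x) + ((A ^ m) x - A ((A ^ m) x)) := by
      rw [pow_succ', Module.End.mul_apply]; abel
    rw [e, inner_add_left]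
    have h1 := form_cs hs hn ((A ^ m) x) x
    have h2 := form_pow hs hn m x
    push_cast
    linarith

end Form

/-! ### The averages move `η` little -/

theorem av_le {ξ η : H} {ε C : ℝ} (hyp : ∀ g, ‖π g η - η‖ ^ 2 ≤ ε + C * ‖π g ξ - ξ‖ ^ 2)
    {S : Module.End ℝ H} (hS : S ∈ Av π) :
    ‖S η - η‖ ^ 2 ≤ ε + 2 * C * ⟪ξ - S ξ, ξ⟫ := by
  have hconv : Convex ℝ {S : Module.End ℝ H | ‖S η - η‖ ^ 2 ≤ ε + 2 * C * ⟪ξ - S ξ, ξ⟫} := by
    intro S hS S' hS' a b ha hb hab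
    change ‖S η - η‖ ^ 2 ≤ ε + 2 * C * ⟪ξ - S ξ, ξ⟫ at hS
    change ‖S' η - η‖ ^ 2 ≤ ε + 2 * C * ⟪ξ - S' ξ, ξ⟫ at hS'
    change ‖(a • S + b • S') η - η‖ ^ 2 ≤ ε + 2 * C * ⟪ξ - (a • S + b • S') ξ, ξ⟫
    have e1 : (a • S + b • S') η - η = a • (S η - η) + b • (S' η - η) := by
      have : η = a • η + b • η := by rw [← add_smul, hab, one_smul]
      simp only [LinearMap.add_apply, LinearMap.smul_apply, smul_sub]
      nth_rewrite 3 [this]
      abel
    have e2 : ⟪ξ - (a • S + b • S') ξ, ξ⟫ = a * ⟪ξ - S ξ, ξ⟫ + b * ⟪ξ - S' ξ, ξ⟫ := by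
      simp only [LinearMap.add_apply, LinearMap.smul_apply, inner_sub_left, inner_add_left,
        inner_smul_left, conj_trivial]
      have : ⟪ξ, ξ⟫ = (a + b) * ⟪ξ, ξ⟫ := by rw [hab, one_mul]
      linarith
    have h1 : ‖a • (S η - η) + b • (S' η - η)‖ ^ 2 ≤ a * ‖S η - η‖ ^ 2 + b * ‖S' η - η‖ ^ 2 := by
      have h2 : ‖a • (S η - η) + b • (S' η - η)‖ ≤ a * ‖S η - η‖ + b * ‖S' η - η‖ := by
        refine (norm_add_le _ _).trans ?_
        rw [norm_smul, norm_smul, Real.norm_of_nonneg ha, Real.norm_of_nonneg hb]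
      have h3 : ‖a • (S η - η) + b • (S' η - η)‖ ^ 2 ≤ (a * ‖S η - η‖ + b * ‖S' η - η‖) ^ 2 :=
        pow_le_pow_left₀ (norm_nonneg _) h2 2
      refine h3.trans ?_
      have h4 : a = 1 - b := by linarith
      subst h4
      nlinarith [mul_nonneg ha hb, sq_nonneg (‖S η - η‖ - ‖S' η - η‖),
        mul_nonneg (mul_nonneg ha hb) (sq_nonneg (‖S η - η‖ - ‖S' η - η‖))]
    rw [e1, e2]
    have h5 : a * (ε + 2 * C * ⟪ξ - S ξ, ξ⟫) + b * (ε + 2 * C * ⟪ξ - S' ξ, ξ⟫) =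
        ε + 2 * C * (a * ⟪ξ - S ξ, ξ⟫ + b * ⟪ξ - S' ξ, ξ⟫) := by
      have : ε = (a + b) * ε := by rw [hab, one_mul]
      linarith
    rw [← h5]
    exact h1.trans (add_le_add (mul_le_mul_of_nonneg_left hS ha)
      (mul_le_mul_of_nonneg_left hS' hb))
  refine convexHull_min ?_ hconv hS
  rintro _ ⟨g, rfl⟩
  change ‖π g η - η‖ ^ 2 ≤ ε + 2 * C * ⟪ξ - π g ξ, ξ⟫
  refine (hyp g).trans (le_of_eq ?_)
  rw [norm_sub_sq' π g ξ, inner_sub_left, real_inner_self_eq_norm_sq]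
  ring

/-! ### One averaged inequality -/

/-- The averaged Lipschitz bound with a constant not depending on the weights. -/
theorem averaged {ξ η : H} {r C : ℝ} (hr : 0 < r) (hC : 0 < C)
    (hyp : ∀ g, ‖π g η - η‖ ^ 2 ≤ r ^ 2 / 2 + C * ‖π g ξ - ξ‖ ^ 2)
    (hw : ∀ g ∈ s, 0 ≤ w g) (h1 : ∑ g ∈ s, w g = 1) {d : ℝ} (hd : 0 < d) :
    ∃ ζ : H, ‖ζ - η‖ ≤ r ∧ ∑ g ∈ s, w g * ‖π g ζ - ζ‖ ^ 2 ≤
      16 * ‖η‖ ^ 2 * C / r ^ 2 * (∑ g ∈ s, w g * ‖π g ξ - ξ‖ ^ 2 + d) := by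
  set E := ∑ g ∈ s, w g * ‖π g ξ - ξ‖ ^ 2 with hE
  have hE0 : 0 ≤ E := Finset.sum_nonneg fun g hg => mul_nonneg (hw g hg) (by positivity)
  set τ := r ^ 2 / (2 * C) with hτ
  have hτ0 : 0 < τ := by positivity
  have hsym := T_symm π (s := s) (w := w)
  have hnorm := T_norm π hw h1
  have hform : ∀ x : H, ∑ g ∈ s, w g * ‖π g x - x‖ ^ 2 = 2 * ⟪x - T π s w x, x⟫ := by
    intro x
    rw [T_sum π x h1, inner_sub_left, real_inner_self_eq_norm_sq]
  rcases le_or_gt (E + d) τ with hcase | hcase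
  · -- long averages
    set n := ⌊τ / (E + d)⌋₊ with hn
    have hx1 : 1 ≤ τ / (E + d) := (one_le_div (by linarith)).2 hcase
    have hn1 : 1 ≤ n := Nat.le_floor (by exact_mod_cast hx1)
    have hnle : (n : ℝ) ≤ τ / (E + d) := Nat.floor_le (by positivity)
    have hnlt : τ / (E + d) < n + 1 := Nat.lt_floor_add_one _
    have hn0 : (0 : ℝ) < n := by exact_mod_cast hn1
    have hnge : τ / (E + d) ≤ 2 * n := by
      have : (1 : ℝ) ≤ n := by exact_mod_cast hn1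
      linarith
    set ζ := (n : ℝ)⁻¹ • ∑ m ∈ range n, (T π s w ^ m) η with hζ
    have hdist : ∀ m ∈ range n, ‖(T π s w ^ m) η - η‖ ≤ r := by
      intro m hm
      have hm' : (m : ℝ) ≤ n := by exact_mod_cast (Finset.mem_range.1 hm).le
      have h2 := av_le π hyp (T_pow_mem_av π hw h1 m)
      have h3 := one_sub_pow hsym hnorm m ξ
      have h4 := form_nonneg hsym hnorm ξ
      have h5 : 2 * ⟪ξ - T π s w ξ, ξ⟫ = E := (hform ξ).symm
      have h6 : 2 * C * ⟪ξ - (T π s w ^ m) ξ, ξ⟫ ≤ C * (n * E) := by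
        have h7 : ⟪ξ - (T π s w ^ m) ξ, ξ⟫ ≤ n * ⟪ξ - T π s w ξ, ξ⟫ :=
          h3.trans (mul_le_mul_of_nonneg_right hm' h4)
        calc 2 * C * ⟪ξ - (T π s w ^ m) ξ, ξ⟫ ≤ 2 * C * (n * ⟪ξ - T π s w ξ, ξ⟫) :=
              mul_le_mul_of_nonneg_left h7 (by positivity)
          _ = C * (n * (2 * ⟪ξ - T π s w ξ, ξ⟫)) := by ring
          _ = C * (n * E) := by rw [h5]
      have h8 : C * (n * E) ≤ r ^ 2 / 2 := by
        have h9 : (n : ℝ) * E ≤ τ := by
          have := (le_div_iff₀ (by linarith : 0 < E + d)).1 hnle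
          nlinarith
        calc C * (n * E) ≤ C * τ := mul_le_mul_of_nonneg_left h9 hC.le
          _ = r ^ 2 / 2 := by rw [hτ]; field_simp
      have h10 : ‖(T π s w ^ m) η - η‖ ^ 2 ≤ r ^ 2 := by linarith
      exact le_of_sq_le_sq h10 hr.le
    refine ⟨ζ, ?_, ?_⟩
    · have e : ζ - η = (n : ℝ)⁻¹ • ∑ m ∈ range n, ((T π s w ^ m) η - η) := by
        rw [Finset.sum_sub_distrib, smul_sub, ← hζ, Finset.sum_const, Finset.card_range,
          ← Nat.cast_smul_eq_nsmul ℝ, smul_smul, inv_mul_cancel₀ hn0.ne', one_smul]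
      rw [e, norm_smul, norm_inv, Real.norm_of_nonneg hn0.le]
      have h2 : ‖∑ m ∈ range n, ((T π s w ^ m) η - η)‖ ≤ n * r := by
        refine (norm_sum_le _ _).trans ((Finset.sum_le_sum hdist).trans ?_)
        simp
      calc (n : ℝ)⁻¹ * ‖∑ m ∈ range n, ((T π s w ^ m) η - η)‖ ≤ (n : ℝ)⁻¹ * (n * r) :=
            mul_le_mul_of_nonneg_left h2 (by positivity)
        _ = r := by field_simp
    · rw [hform ζ]
      have e : ζ - T π s w ζ = (n : ℝ)⁻¹ • (η - (T π s w ^ n) η) := by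
        rw [hζ, map_smul, ← smul_sub, map_sum, ← Finset.sum_sub_distrib]
        congr 1
        have h3 := Finset.sum_range_sub' (fun m => (T π s w ^ m) η) n
        simp only [pow_zero, Module.End.one_apply] at h3
        rw [← h3]
        refine Finset.sum_congr rfl fun m _ => ?_
        rw [pow_succ', Module.End.mul_apply]
      have h2 : ‖ζ - T π s w ζ‖ ≤ (n : ℝ)⁻¹ * (2 * ‖η‖) := by
        rw [e, norm_smul, norm_inv, Real.norm_of_nonneg hn0.le]
        refine mul_le_mul_of_nonneg_left ?_ (by positivity)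
        refine (norm_sub_le _ _).trans ?_
        have := pow_norm hsym hnorm n η
        linarith
      have h3 : ‖ζ‖ ≤ ‖η‖ := by
        rw [hζ, norm_smul, norm_inv, Real.norm_of_nonneg hn0.le]
        have h4 : ‖∑ m ∈ range n, (T π s w ^ m) η‖ ≤ n * ‖η‖ := by
          refine (norm_sum_le _ _).trans ((Finset.sum_le_sum fun m _ =>
            pow_norm hsym hnorm m η).trans ?_)
          simp
        calc (n : ℝ)⁻¹ * ‖∑ m ∈ range n, (T π s w ^ m) η‖ ≤ (n : ℝ)⁻¹ * (n * ‖η‖) :=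
              mul_le_mul_of_nonneg_left h4 (by positivity)
          _ = ‖η‖ := by field_simp
      have h5 : ⟪ζ - T π s w ζ, ζ⟫ ≤ (n : ℝ)⁻¹ * (2 * ‖η‖) * ‖η‖ :=
        (real_inner_le_norm _ _).trans (mul_le_mul h2 h3 (norm_nonneg _) (by positivity))
      have h6 : (n : ℝ)⁻¹ ≤ 2 * (E + d) / τ := by
        rw [inv_le_comm₀ hn0 (by positivity)]
        rw [inv_div, div_le_iff₀ (by positivity)]
        have := (div_le_iff₀ (by linarith : 0 < E + d)).1 hnge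
        linarith
      calc 2 * ⟪ζ - T π s w ζ, ζ⟫ ≤ 2 * ((n : ℝ)⁻¹ * (2 * ‖η‖) * ‖η‖) := by linarith
        _ = 4 * ‖η‖ ^ 2 * (n : ℝ)⁻¹ := by ring
        _ ≤ 4 * ‖η‖ ^ 2 * (2 * (E + d) / τ) := mul_le_mul_of_nonneg_left h6 (by positivity)
        _ = 16 * ‖η‖ ^ 2 * C / r ^ 2 * (E + d) := by rw [hτ]; field_simp; ring
  · refine ⟨η, by simpa using hr.le, ?_⟩
    have h2 : ∑ g ∈ s, w g * ‖π g η - η‖ ^ 2 ≤ 4 * ‖η‖ ^ 2 := by
      have h3 : ∀ g ∈ s, w g * ‖π g η - η‖ ^ 2 ≤ w g * (4 * ‖η‖ ^ 2) := by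
        intro g hg
        refine mul_le_mul_of_nonneg_left ?_ (hw g hg)
        have h4 : ‖π g η - η‖ ≤ 2 * ‖η‖ := by
          refine (norm_sub_le _ _).trans ?_
          rw [LinearIsometryEquiv.norm_map]; linarith
        nlinarith [norm_nonneg (π g η - η), norm_nonneg η]
      refine (Finset.sum_le_sum h3).trans ?_
      rw [← Finset.sum_mul, h1, one_mul]
    refine h2.trans ?_
    have h5 : 1 ≤ (E + d) / τ := (one_le_div hτ0).2 hcase.le
    have h6 : 16 * ‖η‖ ^ 2 * C / r ^ 2 * (E + d) = 8 * ‖η‖ ^ 2 * ((E + d) / τ) := by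
      rw [hτ]; field_simp; ring
    rw [h6]
    nlinarith [sq_nonneg ‖η‖]

/-! ### Finitely many group elements: separation -/

theorem sq_convex (a b : ℝ) (ha : 0 ≤ a) (hb : 0 ≤ b) (hab : a + b = 1) (x y : H) :
    ‖a • x + b • y‖ ^ 2 ≤ a * ‖x‖ ^ 2 + b * ‖y‖ ^ 2 := by
  have h2 : ‖a • x + b • y‖ ≤ a * ‖x‖ + b * ‖y‖ := by
    refine (norm_add_le _ _).trans ?_
    rw [norm_smul, norm_smul, Real.norm_of_nonneg ha, Real.norm_of_nonneg hb]
  refine (pow_le_pow_left₀ (norm_nonneg _) h2 2).trans ?_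
  have h4 : a = 1 - b := by linarith
  subst h4
  nlinarith [mul_nonneg (mul_nonneg ha hb) (sq_nonneg (‖x‖ - ‖y‖))]

theorem finite_lip {ξ η : H} {r C : ℝ} (hr : 0 < r) (hC : 0 < C)
    (hyp : ∀ g, ‖π g η - η‖ ^ 2 ≤ r ^ 2 / 2 + C * ‖π g ξ - ξ‖ ^ 2)
    (s : Finset G) {d : ℝ} (hd : 0 < d) :
    ∃ ζ : H, ‖ζ - η‖ ≤ r ∧ ∀ g ∈ s, ‖π g ζ - ζ‖ ^ 2 ≤
      16 * ‖η‖ ^ 2 * C / r ^ 2 * ‖π g ξ - ξ‖ ^ 2 + d := by
  classical
  set K := 16 * ‖η‖ ^ 2 * C / r ^ 2 with hK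
  have hK0 : 0 ≤ K := by positivity
  by_contra hcon
  push Not at hcon
  set c : H → s → ℝ := fun ζ g => ‖π (g : G) ζ - ζ‖ ^ 2 - K * ‖π (g : G) ξ - ξ‖ ^ 2 with hc
  set A : Set (s → ℝ) := ⋃ ζ ∈ Metric.closedBall η r, Set.pi Set.univ (fun g => Set.Ioi (c ζ g))
    with hA
  have hmem : ∀ a : s → ℝ, a ∈ A ↔ ∃ ζ, ‖ζ - η‖ ≤ r ∧ ∀ g, c ζ g < a g := by
    intro a
    simp only [hA, Set.mem_iUnion, Metric.mem_closedBall, dist_eq_norm, Set.mem_pi, Set.mem_univ,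
      forall_const, Set.mem_Ioi, exists_prop]
  have hopen : IsOpen A :=
    isOpen_iUnion fun ζ => isOpen_iUnion fun _ => isOpen_set_pi Set.finite_univ
      fun g _ => isOpen_Ioi
  have hconv : Convex ℝ A := by
    intro a ha b hb t u ht hu htu
    rw [hmem] at ha hb ⊢
    obtain ⟨ζ, h1, h2⟩ := ha
    obtain ⟨ζ', h1', h2'⟩ := hb
    refine ⟨t • ζ + u • ζ', ?_, fun g => ?_⟩
    · have e : t • ζ + u • ζ' - η = t • (ζ - η) + u • (ζ' - η) := by
        have : η = t • η + u • η := by rw [← add_smul, htu, one_smul]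
        simp only [smul_sub]
        nth_rewrite 1 [this]
        abel
      rw [e]
      refine (norm_add_le _ _).trans ?_
      rw [norm_smul, norm_smul, Real.norm_of_nonneg ht, Real.norm_of_nonneg hu]
      calc t * ‖ζ - η‖ + u * ‖ζ' - η‖ ≤ t * r + u * r :=
            add_le_add (mul_le_mul_of_nonneg_left h1 ht) (mul_le_mul_of_nonneg_left h1' hu)
        _ = r := by rw [← add_mul, htu, one_mul]
    · have e : π (g : G) (t • ζ + u • ζ') - (t • ζ + u • ζ') =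
          t • (π (g : G) ζ - ζ) + u • (π (g : G) ζ' - ζ') := by
        rw [map_add, map_smul, map_smul]
        simp only [smul_sub]
        abel
      have h3 := sq_convex t u ht hu htu (π (g : G) ζ - ζ) (π (g : G) ζ' - ζ')
      have h4 : c (t • ζ + u • ζ') g ≤ t * c ζ g + u * c ζ' g := by
        simp only [hc]
        rw [e]
        have : K * ‖π (g : G) ξ - ξ‖ ^ 2 = (t + u) * (K * ‖π (g : G) ξ - ξ‖ ^ 2) := by
          rw [htu, one_mul]
        linarith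
      refine lt_of_le_of_lt h4 ?_
      simp only [Pi.add_apply, Pi.smul_apply, smul_eq_mul]
      rcases eq_or_lt_of_le ht with h0 | h0
      · have hu1 : u = 1 := by linarith
        rw [← h0, hu1]
        simpa using h2' g
      · have h5 : t * c ζ g < t * a g := mul_lt_mul_of_pos_left (h2 g) h0
        have h6 : u * c ζ' g ≤ u * b g := mul_le_mul_of_nonneg_left (h2' g).le hu
        linarith
  have hx : (fun _ => d : s → ℝ) ∉ A := by
    rw [hmem]
    rintro ⟨ζ, h1, h2⟩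
    obtain ⟨g, hg, h3⟩ := hcon ζ h1
    have := h2 ⟨g, hg⟩
    simp only [hc] at this
    linarith
  obtain ⟨f, hf⟩ := geometric_hahn_banach_open_point hconv hopen hx
  set v : s → ℝ := fun g => - f (Pi.single g 1) with hv
  have hfa : ∀ a : s → ℝ, f a = - ∑ g, v g * a g := by
    intro a
    have h1 : a = ∑ g, a g • (Pi.single g (1 : ℝ) : s → ℝ) := by
      ext h
      simp [Finset.sum_apply, Pi.single_apply]
    conv_lhs => rw [h1, map_sum]
    rw [← Finset.sum_neg_distrib]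
    refine Finset.sum_congr rfl fun g _ => ?_
    rw [map_smul, smul_eq_mul, hv]
    ring
  have hne : (fun g => c η g + 1 : s → ℝ) ∈ A := by
    rw [hmem]
    exact ⟨η, by simpa using hr.le, fun g => by linarith⟩
  have hv0 : ∀ g, 0 ≤ v g := by
    intro g
    by_contra hneg
    push Not at hneg
    have h2 : ∀ t : ℝ, 0 ≤ t → ((fun g => c η g + 1) + t • Pi.single g (1 : ℝ) : s → ℝ) ∈ A := by
      intro t ht
      rw [hmem] at hne ⊢
      obtain ⟨ζ, h1, h2⟩ := hne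
      refine ⟨ζ, h1, fun h => (h2 h).trans_le ?_⟩
      simp only [Pi.add_apply, Pi.smul_apply, smul_eq_mul]
      have : 0 ≤ t * (Pi.single g (1 : ℝ) : s → ℝ) h := by
        refine mul_nonneg ht ?_
        rw [Pi.single_apply]
        split_ifs <;> norm_num
      linarith
    have h3 : 0 < f (Pi.single g 1) := by
      have : v g = - f (Pi.single g 1) := rfl
      linarith
    set M := f (fun _ => d) - f (fun g => c η g + 1) with hM
    have hM0 : 0 < M := by have := hf _ hne; linarith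
    have h4 := hf _ (h2 (M / f (Pi.single g 1)) (by positivity))
    rw [map_add, map_smul, smul_eq_mul, div_mul_cancel₀ _ h3.ne'] at h4
    linarith
  set W := ∑ g, v g with hW
  have hW0 : 0 < W := by
    rcases eq_or_lt_of_le (Finset.sum_nonneg fun g (_ : g ∈ Finset.univ) => hv0 g) with h0 | h0
    · exfalso
      have h1 : ∀ g, v g = 0 := fun g =>
        (Finset.sum_eq_zero_iff_of_nonneg (fun g _ => hv0 g)).1 h0.symm g (Finset.mem_univ _)
      have h2 := hf _ hne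
      rw [hfa, hfa] at h2
      simp [h1] at h2
    · exact h0
  -- the weights on the group
  set w : G → ℝ := fun g => if h : g ∈ s then v ⟨g, h⟩ / W else 0 with hw
  have hws : ∀ g : s, w g = v g / W := fun g => by simp [hw]
  have hw0 : ∀ g ∈ s, 0 ≤ w g := fun g hg => by
    rw [hws ⟨g, hg⟩]
    exact div_nonneg (hv0 _) hW0.le
  have hsum : ∀ F : G → ℝ, ∑ g ∈ s, w g * F g = (∑ g : s, v g * F g) / W := by
    intro F
    rw [← Finset.sum_coe_sort s (fun g => w g * F g), Finset.sum_div]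
    refine Finset.sum_congr rfl fun g _ => ?_
    rw [hws g]
    ring
  have hw1 : ∑ g ∈ s, w g = 1 := by
    have h1 := hsum fun _ => 1
    simp only [mul_one] at h1
    rw [h1, div_self hW0.ne']
  obtain ⟨ζ, hζ1, hζ2⟩ := averaged π hr hC hyp hw0 hw1 (d := d / (2 * (K + 1))) (by positivity)
  rw [← hK, mul_add] at hζ2
  have h3 : K * (d / (2 * (K + 1))) ≤ d / 2 := by
    have h5 : K * (d / (2 * (K + 1))) = d / 2 * (K / (K + 1)) := by
      field_simp
    rw [h5]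
    have h4 : K / (K + 1) ≤ 1 := (div_le_one (by linarith)).2 (by linarith)
    nlinarith
  have ha : (fun g => c ζ g + d / 4 : s → ℝ) ∈ A := by
    rw [hmem]
    exact ⟨ζ, hζ1, fun g => by linarith⟩
  have h4 := hf _ ha
  rw [hfa, hfa] at h4
  have h5 : ∑ g : s, v g * (c ζ g + d / 4) = W * (∑ g ∈ s, w g * (‖π g ζ - ζ‖ ^ 2)
      - K * ∑ g ∈ s, w g * ‖π g ξ - ξ‖ ^ 2) + W * (d / 4) := by
    rw [hsum, hsum]
    have : ∑ g : s, v g * (c ζ g + d / 4) = ∑ g : s, v g * ‖π (g : G) ζ - ζ‖ ^ 2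
        - K * ∑ g : s, v g * ‖π (g : G) ξ - ξ‖ ^ 2 + (∑ g, v g) * (d / 4) := by
      rw [Finset.mul_sum, Finset.sum_mul, ← Finset.sum_sub_distrib, ← Finset.sum_add_distrib]
      refine Finset.sum_congr rfl fun g _ => ?_
      simp only [hc]
      ring
    rw [this, ← hW]
    field_simp
  have h6 : ∑ g : s, v g * d = W * d := by rw [← Finset.sum_mul]
  rw [h5, h6] at h4
  have h7 : ∑ g ∈ s, w g * ‖π g ζ - ζ‖ ^ 2 - K * ∑ g ∈ s, w g * ‖π g ξ - ξ‖ ^ 2 ≤ d / 2 := by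
    linarith
  have h8 := mul_le_mul_of_nonneg_left h7 hW0.le
  nlinarith

/-! ### All group elements: weak compactness -/

/-- **Lipschitz lemma.** -/
theorem exists_lipschitz [CompleteSpace H] (ξ η : H)
    (hyp : ∀ ε : ℝ, 0 < ε → ∃ C : ℝ, ∀ g, ‖π g η - η‖ ^ 2 ≤ ε + C * ‖π g ξ - ξ‖ ^ 2)
    (r : ℝ) (hr : 0 < r) :
    ∃ (ζ : H) (K : ℝ), 0 ≤ K ∧ ‖ζ - η‖ ≤ r ∧ ∀ g, ‖π g ζ - ζ‖ ≤ K * ‖π g ξ - ξ‖ := by
  obtain ⟨C₀, hC₀⟩ := hyp (r ^ 2 / 2) (by positivity)
  set C := max C₀ 1 with hCdef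
  have hC : 0 < C := lt_of_lt_of_le one_pos (le_max_right _ _)
  have hyp' : ∀ g, ‖π g η - η‖ ^ 2 ≤ r ^ 2 / 2 + C * ‖π g ξ - ξ‖ ^ 2 := fun g =>
    (hC₀ g).trans (by
      have := mul_le_mul_of_nonneg_right (le_max_left C₀ 1) (sq_nonneg ‖π g ξ - ξ‖)
      linarith)
  set K := 16 * ‖η‖ ^ 2 * C / r ^ 2 with hK
  have hK0 : 0 ≤ K := by positivity
  have hcomp : IsCompact (WeakDual.toStrongDual ⁻¹'
      Metric.closedBall (InnerProductSpace.toDual ℝ H η) r) :=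
    WeakDual.isCompact_closedBall _ r
  set b : G × ℕ → ℝ := fun p => Real.sqrt (K * ‖π p.1 ξ - ξ‖ ^ 2 + 1 / ((p.2 : ℝ) + 1)) with hb
  set t : G × ℕ → Set (WeakDual ℝ H) := fun p =>
    {φ | ∀ θ : H, φ (π p.1⁻¹ θ - θ) ≤ b p * ‖θ‖} with ht
  have hclosed : ∀ p, IsClosed (t p) := by
    intro p
    have : t p = ⋂ θ : H, {φ : WeakDual ℝ H | φ (π p.1⁻¹ θ - θ) ≤ b p * ‖θ‖} := by
      ext φ
      simp [ht]
    rw [this]
    exact isClosed_iInter fun θ => isClosed_le (WeakDual.eval_continuous _) continuous_const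
  have hfin : ∀ u : Finset (G × ℕ), ((WeakDual.toStrongDual ⁻¹'
      Metric.closedBall (InnerProductSpace.toDual ℝ H η) r) ∩ ⋂ p ∈ u, t p).Nonempty := by
    classical
    intro u
    set N := u.sup Prod.snd with hN
    obtain ⟨ζ, h1, h2⟩ := finite_lip π hr hC hyp' (u.image Prod.fst)
      (d := 1 / ((N : ℝ) + 1)) (by positivity)
    refine ⟨StrongDual.toWeakDual (InnerProductSpace.toDual ℝ H ζ), ?_, ?_⟩
    · change dist (InnerProductSpace.toDual ℝ H ζ) (InnerProductSpace.toDual ℝ H η) ≤ r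
      rw [LinearIsometryEquiv.dist_map, dist_eq_norm]
      exact h1
    · simp only [Set.mem_iInter]
      intro p hp θ
      change (InnerProductSpace.toDual ℝ H ζ) (π p.1⁻¹ θ - θ) ≤ b p * ‖θ‖
      rw [InnerProductSpace.toDual_apply_apply, inner_sub_right, ← inner_inv π p.1 ζ θ,
        ← inner_sub_left]
      refine (real_inner_le_norm _ _).trans (mul_le_mul_of_nonneg_right ?_ (norm_nonneg _))
      refine Real.le_sqrt_of_sq_le ((h2 p.1 (Finset.mem_image_of_mem _ hp)).trans ?_)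
      have h3 : p.2 ≤ N := Finset.le_sup (f := Prod.snd) hp
      have h4 : (p.2 : ℝ) ≤ N := by exact_mod_cast h3
      have h5 : 1 / ((N : ℝ) + 1) ≤ 1 / ((p.2 : ℝ) + 1) :=
        one_div_le_one_div_of_le (by positivity) (by linarith)
      linarith
  obtain ⟨φ, hφ1, hφ2⟩ := hcomp.inter_iInter_nonempty t hclosed hfin
  set ζ := (InnerProductSpace.toDual ℝ H).symm (WeakDual.toStrongDual φ) with hζ
  have hζφ : ∀ θ, φ θ = ⟪ζ, θ⟫ := by
    intro θ
    rw [hζ, InnerProductSpace.toDual_symm_apply]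
    rfl
  refine ⟨ζ, Real.sqrt K, Real.sqrt_nonneg _, ?_, fun g => ?_⟩
  · have h1 : dist (WeakDual.toStrongDual φ) (InnerProductSpace.toDual ℝ H η) ≤ r := hφ1
    have h2 : InnerProductSpace.toDual ℝ H ζ = WeakDual.toStrongDual φ := by
      rw [hζ, LinearIsometryEquiv.apply_symm_apply]
    rw [← h2, LinearIsometryEquiv.dist_map, dist_eq_norm] at h1
    exact h1
  · have h1 : ∀ n : ℕ, ‖π g ζ - ζ‖ ^ 2 ≤ K * ‖π g ξ - ξ‖ ^ 2 + 1 / ((n : ℝ) + 1) := by
      intro n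
      have h2 : φ ∈ t (g, n) := Set.mem_iInter.1 hφ2 (g, n)
      have h3 := h2 (π g ζ - ζ)
      simp only at h3
      rw [hζφ, inner_sub_right, ← inner_inv π g ζ, ← inner_sub_left,
        real_inner_self_eq_norm_sq] at h3
      have h4 : ‖π g ζ - ζ‖ ≤ b (g, n) := by
        rcases eq_or_lt_of_le (norm_nonneg (π g ζ - ζ)) with h0 | h0
        · rw [← h0]; exact Real.sqrt_nonneg _
        · rw [sq] at h3
          exact le_of_mul_le_mul_right h3 h0
      have h5 : ‖π g ζ - ζ‖ ^ 2 ≤ b (g, n) ^ 2 := pow_le_pow_left₀ (norm_nonneg _) h4 2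
      simp only [hb] at h5
      rwa [Real.sq_sqrt (by positivity)] at h5
    have h2 : ‖π g ζ - ζ‖ ^ 2 ≤ K * ‖π g ξ - ξ‖ ^ 2 := by
      have h3 : Filter.Tendsto (fun n : ℕ => K * ‖π g ξ - ξ‖ ^ 2 + 1 / ((n : ℝ) + 1))
          Filter.atTop (nhds (K * ‖π g ξ - ξ‖ ^ 2 + 0)) :=
        tendsto_const_nhds.add tendsto_one_div_add_atTop_nhds_zero_nat
      rw [add_zero] at h3
      exact ge_of_tendsto' h3 h1
    have h3 : ‖π g ζ - ζ‖ ≤ Real.sqrt (K * ‖π g ξ - ξ‖ ^ 2) := Real.le_sqrt_of_sq_le h2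
    rwa [Real.sqrt_mul hK0, Real.sqrt_sq (norm_nonneg _)] at h3

end Pool.Agent.Helper52.BC
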